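import Pool.Agent.Run7.h962.NW.Stm
import Pool.Agent.N422.SL.AB

/-! Project of helper962 (sharp limit of nonnegative sieve weights): FIN. Author: helper91. Several steps are copied from
`Pool.Agent.N422.SL.AB` and `Pool.Agent.N422.WS.WIN`. -/

set_option autoImplicit false

open Finset

namespace Pool.Agent.Run7.h91.NW

open Pool.Agent.N422.NW Pool.Agent.N422.NWS Pool.Agent.N422.SL Pool.Agent.Run7.h962.NW

/-- the product of the differences -/
def dif (H : Finset ℕ) : ℕ := ∏ z ∈ (H ×ˢ H).filter (fun z => z.1 < z.2), (z.2 - z.1)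

theorem dif_pos (H : Finset ℕ) : 0 < dif H := by
  unfold dif
  refine prod_pos fun z hz => ?_
  rw [mem_filter] at hz
  omega

theorem dif_log {H : Finset ℕ} {k Q : ℕ} {B : ℝ} (hH : H.card = k) (hQ : 1 ≤ Q)
    (hHB : ∀ h ∈ H, (h : ℝ) ≤ (Q : ℝ) ^ B) : Real.log (dif H) ≤ (k : ℝ) ^ 2 * max B 0 * Real.log Q := by
  have hQr : (0 : ℝ) < Q := by exact_mod_cast hQ
  have hlogQ0 : 0 ≤ Real.log Q := Real.log_natCast_nonneg Q
  unfold dif
  push_cast
  rw [Real.log_prod (by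
    intro z hz
    rw [mem_filter] at hz
    have : 0 < z.2 - z.1 := by omega
    exact_mod_cast this.ne')]
  have hmB : 0 ≤ max B 0 * Real.log Q := mul_nonneg (le_max_right _ _) hlogQ0
  have h1 : ∀ z ∈ (H ×ˢ H).filter (fun z => z.1 < z.2),
      Real.log ((z.2 - z.1 : ℕ) : ℝ) ≤ max B 0 * Real.log Q := by
    intro z hz
    rw [mem_filter, mem_product] at hz
    have h2 := hHB z.2 hz.1.2
    have h5 : ((z.2 - z.1 : ℕ) : ℝ) ≤ (Q : ℝ) ^ B := by
      have : ((z.2 - z.1 : ℕ) : ℝ) ≤ z.2 := by exact_mod_cast Nat.sub_le _ _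
      linarith
    have h6 : Real.log ((z.2 - z.1 : ℕ) : ℝ) ≤ B * Real.log Q := by
      rw [← Real.log_rpow hQr]
      apply Real.log_le_log _ h5
      exact_mod_cast (by omega : 0 < z.2 - z.1)
    exact h6.trans (mul_le_mul_of_nonneg_right (le_max_left _ _) hlogQ0)
  refine (sum_le_sum h1).trans ?_
  rw [sum_const, nsmul_eq_mul, mul_assoc]
  apply mul_le_mul_of_nonneg_right _ hmB
  have h2 : ((H ×ˢ H).filter (fun z => z.1 < z.2)).card ≤ k ^ 2 := by
    refine (card_filter_le _ _).trans ?_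
    rw [card_product, hH, sq]
  exact_mod_cast h2

theorem dif_dvd {H : Finset ℕ} {a b : ℕ} (ha : a ∈ H) (hb : b ∈ H) (hab : a < b) : b - a ∣ dif H := by
  unfold dif
  exact dvd_prod_of_mem (fun z : ℕ × ℕ => z.2 - z.1)
    (mem_filter.2 ⟨mem_product.2 ⟨ha, hb⟩, hab⟩ : (a, b) ∈ _)

theorem t_FIN (h1 : S_PSs) (h2 : S_AR) (h3 : S_MER) (h4 : S_MER2) : S_FIN := by
  classical
  intro ε hε
  obtain ⟨C, hC0, hC⟩ := h1 ε hε
  refine ⟨C, hC0, ?_⟩
  intro k B hk
  obtain ⟨m, n, η, q0, hm, hmn, hη, hq0, hPS⟩ := hC k hk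
  obtain ⟨b, hb⟩ : ∃ b : ℝ, b = (Real.exp (-Real.eulerMascheroniConstant) / 2 + ε) * Real.log k + C := ⟨_, rfl⟩
  rw [← hb] at hPS
  rw [← hb]
  have hn0 : 0 < n := by omega
  have hnr : (0 : ℝ) < n := by exact_mod_cast hn0
  obtain ⟨Q1, hQ1⟩ := h3 m n ((k : ℝ) ^ 2 * max B 0) η hm hmn hη
  obtain ⟨Q3, hQ3⟩ := h4 m n η hm hmn hη
  obtain ⟨Y0, hY0⟩ := exists_nat_ge (max (k : ℝ) q0)
  have hY1 : (k : ℝ) ≤ Y0 := (le_max_left _ _).trans hY0
  have hY2 : q0 ≤ Y0 := (le_max_right _ _).trans hY0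
  have hY3 : (0 : ℝ) < Y0 := by linarith
  obtain ⟨Q2, hQ2⟩ := (Filter.tendsto_atTop.1 (Real.tendsto_log_atTop.comp tendsto_natCast_atTop_atTop)
    ((n : ℝ) * Real.log Y0 + 1)).exists_forall_of_atTop
  refine ⟨max (max Q1 Q3) (max Q2 1), ?_⟩
  intro Q hQ H hH hHB c hw
  have hQa : Q1 ≤ Q := (le_max_left _ _).trans ((le_max_left _ _).trans hQ)
  have hQd : Q3 ≤ Q := (le_max_right _ _).trans ((le_max_left _ _).trans hQ)
  have hQb : Q2 ≤ Q := (le_max_left _ _).trans ((le_max_right _ _).trans hQ)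
  have hQc : 1 ≤ Q := (le_max_right _ _).trans ((le_max_right _ _).trans hQ)
  have hlogY : 0 ≤ Real.log (Y0 : ℝ) := Real.log_natCast_nonneg Y0
  have hlogQ : (n : ℝ) * Real.log Y0 + 1 ≤ Real.log Q := hQ2 Q hQb
  have hlogQ0 : 0 < Real.log Q := by
    have : 0 ≤ (n : ℝ) * Real.log Y0 := by positivity
    linarith
  have hM0 : 0 < Q.factorial := Nat.factorial_pos Q
  -- large primes
  have hbig : ∀ p : ℕ, 0 < p → (m : ℝ) * Real.log Q < n * Real.log p → Y0 < p := by
    intro p hp0 h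
    have hmr : (1 : ℝ) ≤ m := by exact_mod_cast hm
    have h5 : (n : ℝ) * Real.log Y0 < n * Real.log p := by nlinarith
    have h6 : Real.log Y0 < Real.log p := lt_of_mul_lt_mul_left h5 hnr.le
    have h7 := (Real.log_lt_log_iff hY3 (by exact_mod_cast hp0)).1 h6
    exact_mod_cast h7
  -- the bad primes
  obtain ⟨Bd, hBd⟩ : ∃ Bd : Finset ℕ, Bd = ((Icc 1 Q).filter Nat.Prime).filter (fun p => p ∣ dif H) := ⟨_, rfl⟩
  have hBdp : ∀ p ∈ Bd, p.Prime ∧ p ∣ dif H := fun p hp => by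
    rw [hBd, mem_filter, mem_filter] at hp
    exact ⟨hp.1.2, hp.2⟩
  have hmer := hQ1 Q hQa Bd (fun p hp => (hBdp p hp).1) ((AB_lg (dif_pos H) hBdp).trans (dif_log hH hQc hHB))
  have hmer2 := hQ3 Q hQd
  -- the places
  obtain ⟨P, hP⟩ : ∃ P : Finset ℕ, P = ((Icc 1 Q).filter Nat.Prime).filter
    (fun p : ℕ => p ∉ Bd ∧ (m : ℝ) * Real.log Q < n * Real.log p) := ⟨_, rfl⟩
  have hP' : ∀ p ∈ P, p.Prime ∧ 1 ≤ p ∧ p ≤ Q ∧ p ∉ Bd ∧ (m : ℝ) * Real.log Q < n * Real.log p := fun p hp => by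
    rw [hP, mem_filter, mem_filter, mem_Icc] at hp
    exact ⟨hp.1.2, hp.1.1.1, hp.1.1.2, hp.2.1, hp.2.2⟩
  have hlogp : ∀ p ∈ P, Real.log p ≤ Real.log Q := fun p hp => by
    have h := hP' p hp
    exact Real.log_le_log (by exact_mod_cast h.2.1) (by exact_mod_cast h.2.2.1)
  have hspec := fun p (hp : p ∈ P) => AB_blk_spec (m := m) (n := n) (Q := Q) (p := p) hm hlogQ0
    (hP' p hp).2.2.2.2 (hlogp p hp)
  have hpY : ∀ p ∈ P, Y0 < p := fun p hp => hbig p (hP' p hp).2.1 (hP' p hp).2.2.2.2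
  have hblock : ∀ j, m ≤ j → j < n → P.filter (fun p => AB_blk n Q p = j) =
      ((Icc 1 Q).filter Nat.Prime).filter (fun p => p ∉ Bd ∧
        (j : ℝ) * Real.log Q < n * Real.log p ∧ n * Real.log p ≤ ((j : ℝ) + 1) * Real.log Q) := by
    intro j hj1 hj2
    ext p
    constructor
    · intro hp
      rw [mem_filter] at hp
      have h := hP' p hp.1
      have hs := hspec p hp.1
      rw [hp.2] at hs
      simp only [mem_filter, mem_Icc]
      exact ⟨⟨⟨h.2.1, h.2.2.1⟩, h.1⟩, h.2.2.2.1, hs.2.2.1, hs.2.2.2⟩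
    · intro hp
      simp only [mem_filter, mem_Icc] at hp
      obtain ⟨⟨⟨h1, h2⟩, h5⟩, h6, h7, h8⟩ := hp
      have hmj : (m : ℝ) ≤ j := by exact_mod_cast hj1
      rw [hP]
      simp only [mem_filter, mem_Icc]
      exact ⟨⟨⟨⟨h1, h2⟩, h5⟩, h6, by nlinarith⟩, AB_blk_unique hlogQ0 h7 h8⟩
  obtain ⟨q, hq⟩ : ∃ q : Fin P.card → ℕ, q = P.orderEmbOfFin rfl := ⟨_, rfl⟩
  have hqmem : ∀ i, q i ∈ P := fun i => by rw [hq]; exact P.orderEmbOfFin_mem rfl i
  have hqmono : StrictMono q := by rw [hq]; exact (P.orderEmbOfFin rfl).strictMono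
  have himg : P = univ.image q := by
    rw [hq]
    exact (Finset.image_orderEmbOfFin_univ P rfl).symm
  obtain ⟨hs, hhs⟩ : ∃ hs : Fin k → ℕ, hs = H.orderEmbOfFin hH := ⟨_, rfl⟩
  have hsmem : ∀ a, hs a ∈ H := fun a => by rw [hhs]; exact H.orderEmbOfFin_mem hH a
  have hsmono : StrictMono hs := by rw [hhs]; exact (H.orderEmbOfFin hH).strictMono
  have hsimg : H = univ.image hs := by
    rw [hhs]
    exact (Finset.image_orderEmbOfFin_univ H hH).symm
  -- a prime of `P` divides no difference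
  have hnd : ∀ i, ∀ a b, a ∈ H → b ∈ H → a < b → ¬ q i ∣ b - a := by
    intro i a b ha hb hab hd
    have h := hP' _ (hqmem i)
    apply h.2.2.2.1
    rw [hBd, mem_filter, mem_filter, mem_Icc]
    exact ⟨⟨⟨h.2.1, h.2.2.1⟩, h.1⟩, hd.trans (dif_dvd ha hb hab)⟩
  have hinj : ∀ (i : Fin P.card) (x : ℕ) (a a' : Fin k), q i ∣ x + hs a → q i ∣ x + hs a' → a = a' := by
    intro i x a a' ha ha'
    by_contra hne
    rcases lt_or_gt_of_ne hne with h | h
    · apply hnd i _ _ (hsmem a) (hsmem a') (hsmono h)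
      have h5 := Nat.dvd_sub ha' ha
      rwa [Nat.add_sub_add_left] at h5
    · apply hnd i _ _ (hsmem a') (hsmem a) (hsmono h)
      have h5 := Nat.dvd_sub ha ha'
      rwa [Nat.add_sub_add_left] at h5
  have hsumq : ∀ (j : ℕ) (G : ℕ → ℝ), ∑ i ∈ univ.filter (fun i => AB_blk n Q (q i) = j), G (q i) =
      ∑ p ∈ P.filter (fun p => AB_blk n Q p = j), G p := by
    intro j G
    have e : P.filter (fun p => AB_blk n Q p = j) = (univ.filter (fun i => AB_blk n Q (q i) = j)).image q := by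
      conv_lhs => rw [himg]
      rw [filter_image]
    rw [e, sum_image (fun a _ b _ hab => hqmono.injective hab)]
  have hmain := h2 P.card k hs q (fun i => AB_blk n Q (q i)) n Q Q.factorial (fun d x => c d (x % d)) b
    hqmono.injective
    (fun i => ⟨(hP' _ (hqmem i)).1, by
      have h5 := hpY _ (hqmem i)
      have h6 : k ≤ Y0 := by exact_mod_cast hY1
      omega⟩) hinj hM0
    (fun i => Nat.dvd_factorial (hP' _ (hqmem i)).2.1 (hP' _ (hqmem i)).2.2.1)
    (fun d hd => ⟨fun x => by simp only [Nat.add_mod_right], by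
      rw [mem_Icc] at hd
      exact Nat.dvd_factorial (by omega) hd.2⟩)
    (fun x => hw x)
    (fun d hd => by
      rw [mem_Icc] at hd
      obtain ⟨T, hT⟩ : ∃ T : Finset (Fin P.card), T = univ.filter (fun i => q i ∣ d) :=
        ⟨_, rfl⟩
      rw [← hT]
      have h5 : ∑ i ∈ T, Real.log (q i) ≤ Real.log d := by
        have h6 : ∑ i ∈ T, Real.log (q i) = ∑ p ∈ T.image q, Real.log p := by
          rw [sum_image (fun a _ b _ hab => hqmono.injective hab)]
        rw [h6]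
        refine AB_lg (by omega) ?_
        intro p hp
        rw [mem_image] at hp
        obtain ⟨i, hi, rfl⟩ := hp
        rw [hT, mem_filter] at hi
        exact ⟨(hP' _ (hqmem i)).1, hi.2⟩
      have h7 : Real.log d ≤ Real.log Q :=
        Real.log_le_log (by exact_mod_cast hd.1) (by exact_mod_cast hd.2)
      have h9 : (∑ i ∈ T, (AB_blk n Q (q i) : ℝ)) * Real.log Q ≤ n * Real.log Q := by
        rw [sum_mul]
        refine (sum_le_sum fun i _ => (hspec _ (hqmem i)).2.2.1.le).trans ?_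
        rw [← mul_sum]
        exact mul_le_mul_of_nonneg_left (h5.trans h7) hnr.le
      have h10 := le_of_mul_le_mul_right h9 hlogQ0
      exact_mod_cast h10)
    (fun f hf0 hfL => hPS P.card (fun i => (q i : ℝ)) (fun i => AB_blk n Q (q i))
      (fun i => ⟨(hspec _ (hqmem i)).1, (hspec _ (hqmem i)).2.1⟩)
      (fun i => by
        have h5 := hpY _ (hqmem i)
        have h6 : (Y0 : ℝ) < q i := by exact_mod_cast h5
        linarith)
      (fun j hj1 hj2 => by
        rw [hsumq j (fun p => 1 / (p : ℝ)), hblock j hj1 hj2]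
        refine ⟨hmer j hj1 hj2, le_trans ?_ (hmer2 j hj1 hj2)⟩
        apply sum_le_sum_of_subset_of_nonneg
        · intro p hp
          rw [mem_filter] at hp ⊢
          exact ⟨hp.1, hp.2.2⟩
        · intro p _ _
          positivity) f hf0 hfL)
  refine le_trans ?_ hmain
  apply sum_le_sum
  intro x _
  apply mul_le_mul_of_nonneg_left _ (hw x)
  have hcard : (H.filter (fun h => ∀ p ∈ range (Q + 1), p.Prime → ¬ p ∣ x + h)).card ≤
      (univ.filter (fun a : Fin k => ∀ i, ¬ q i ∣ x + hs a)).card := by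
    rw [← card_image_of_injective (univ.filter (fun a : Fin k => ∀ i, ¬ q i ∣ x + hs a)) hsmono.injective]
    apply card_le_card
    intro h hh
    rw [mem_filter] at hh
    have h5 := hh.1
    rw [hsimg, mem_image] at h5
    obtain ⟨a, -, rfl⟩ := h5
    rw [mem_image]
    refine ⟨a, mem_filter.2 ⟨mem_univ _, fun i => ?_⟩, rfl⟩
    have h6 := hP' _ (hqmem i)
    exact hh.2 (q i) (mem_range.2 (by omega)) h6.1
  exact_mod_cast hcard

end Pool.Agent.Run7.h91.NW
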